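import Pool.Agent.H87.EBK.Stmts

/-!
# Row RCB of the board `ebk`
-/

set_option autoImplicit false

namespace Pool.EBK

theorem rcb (hV : VNE) (hS : STA) (hT : TRJ) : RCB := by
  intro a b z j hab hz hab' hza hj
  obtain ⟨ha, hb, hs⟩ := hab
  obtain ⟨hz0, hz1, hz2⟩ := hz
  have hβ : 2 ≤ v b - v a := by
    rcases hV a b ⟨ha, hb, hs⟩ with h | h
    · omega
    · omega
  have h1 : Third z b a := by
    refine ⟨ha, ?_, ?_⟩
    · rw [add_comm]
      exact hz1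
    · rw [add_comm]
      exact hs
  have h2 : Pair z b := by
    refine ⟨hz0, hb, ?_⟩
    rw [add_comm]
    exact hz2
  obtain ⟨h3, h4⟩ := hS z b a hz0 hb h1
  obtain ⟨_, c, ⟨c0, c1, c2⟩, h7, h8⟩ := hT z b (z * b / a) (v b - v a) j h2 h3 hβ (by omega) hj
  exact ⟨⟨hb, hz0, hz2⟩, c, ⟨c0, c2, c1⟩, h8, h7⟩

end Pool.EBK
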